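import Mathlib

/-!
Lower bounds for the largest density of a subset of `F_3^n` without a three-term progression
`x, x + d, x + 2 d` whose common difference `d` is a nonzero `{0,1}`-vector.
-/

namespace Pool.Agent.Results.MP_28d996_co.CapSetLift

/-- `A ⊆ F_3^n` is free: no `x`, `x + d`, `x + 2 d` all in `A` with `d` a nonzero vector all of whose
coordinates are `0` or `1`. -/
def IsFree {n : ℕ} (A : Finset (Fin n → ZMod 3)) : Prop :=
  ∀ x d : Fin n → ZMod 3, d ≠ 0 → (∀ i, d i = 0 ∨ d i = 1) →
    ¬ (x ∈ A ∧ x + d ∈ A ∧ x + 2 • d ∈ A)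

/-- `δ(n)`: the largest density `|A| / 3^n` of a free set `A ⊆ F_3^n`. -/
noncomputable def delta (n : ℕ) : ℝ :=
  sSup {α : ℝ | ∃ A : Finset (Fin n → ZMod 3), IsFree A ∧ α = (A.card : ℝ) / 3 ^ n}

/-- `C ⊆ F_3^m` is a cap set: no `x`, `x + d`, `x + 2 d` all in `C` with `d ≠ 0`. -/
def IsCapSet {m : ℕ} (C : Finset (Fin m → ZMod 3)) : Prop :=
  ∀ x d : Fin m → ZMod 3, d ≠ 0 → ¬ (x ∈ C ∧ x + d ∈ C ∧ x + 2 • d ∈ C)

/-- The largest density `|C| / 3^m` of a cap set `C ⊆ F_3^m`. -/
noncomputable def capDensity (m : ℕ) : ℝ :=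
  sSup {α : ℝ | ∃ C : Finset (Fin m → ZMod 3), IsCapSet C ∧ α = (C.card : ℝ) / 3 ^ m}

/-! ### Attainment -/

theorem finite_vals {n : ℕ} (P : Finset (Fin n → ZMod 3) → Prop) :
    {α : ℝ | ∃ A : Finset (Fin n → ZMod 3), P A ∧ α = (A.card : ℝ) / 3 ^ n}.Finite := by
  have : {α : ℝ | ∃ A : Finset (Fin n → ZMod 3), P A ∧ α = (A.card : ℝ) / 3 ^ n} ⊆
      Set.range (fun A : Finset (Fin n → ZMod 3) => (A.card : ℝ) / 3 ^ n) := by
    rintro α ⟨A, -, rfl⟩
    exact ⟨A, rfl⟩
  exact (Set.finite_range _).subset this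

theorem le_delta {n : ℕ} {A : Finset (Fin n → ZMod 3)} (hA : IsFree A) :
    (A.card : ℝ) / 3 ^ n ≤ delta n :=
  le_csSup (finite_vals IsFree).bddAbove ⟨A, hA, rfl⟩

theorem exists_delta (n : ℕ) :
    ∃ A : Finset (Fin n → ZMod 3), IsFree A ∧ delta n = (A.card : ℝ) / 3 ^ n := by
  have hne : {α : ℝ | ∃ A : Finset (Fin n → ZMod 3), IsFree A ∧
      α = (A.card : ℝ) / 3 ^ n}.Nonempty :=
    ⟨_, ∅, fun x d _ _ h => by simpa using h.1, rfl⟩
  exact hne.csSup_mem (finite_vals IsFree)

theorem le_capDensity {n : ℕ} {A : Finset (Fin n → ZMod 3)} (hA : IsCapSet A) :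
    (A.card : ℝ) / 3 ^ n ≤ capDensity n :=
  le_csSup (finite_vals IsCapSet).bddAbove ⟨A, hA, rfl⟩

theorem exists_capDensity (n : ℕ) :
    ∃ A : Finset (Fin n → ZMod 3), IsCapSet A ∧ capDensity n = (A.card : ℝ) / 3 ^ n := by
  have hne : {α : ℝ | ∃ A : Finset (Fin n → ZMod 3), IsCapSet A ∧
      α = (A.card : ℝ) / 3 ^ n}.Nonempty :=
    ⟨_, ∅, fun x d _ h => by simpa using h.1, rfl⟩
  exact hne.csSup_mem (finite_vals IsCapSet)

theorem delta_nonneg (n : ℕ) : 0 ≤ delta n := by
  obtain ⟨A, -, h⟩ := exists_delta n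
  rw [h]; positivity

theorem capDensity_nonneg (n : ℕ) : 0 ≤ capDensity n := by
  obtain ⟨A, -, h⟩ := exists_capDensity n
  rw [h]; positivity

/-! ### Monotonicity -/

theorem delta_succ_le (n : ℕ) : delta (n + 1) ≤ delta n := by
  classical
  obtain ⟨A, hA, hd⟩ := exists_delta (n + 1)
  -- slices
  let S : ZMod 3 → Finset (Fin n → ZMod 3) := fun v =>
    Finset.univ.filter (fun x => (Fin.cons v x : Fin (n + 1) → ZMod 3) ∈ A)
  have hS : ∀ v, IsFree (S v) := by
    intro v x d hd0 hd01 h
    simp only [S, Finset.mem_filter, Finset.mem_univ, true_and] at h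
    refine hA (Fin.cons v x) (Fin.cons 0 d) ?_ ?_ ?_
    · intro h0
      apply hd0
      funext i
      have := congrFun h0 i.succ
      simpa using this
    · intro i
      refine Fin.cases ?_ ?_ i
      · left; simp
      · intro j; simpa using hd01 j
    · have e1 : (Fin.cons v x : Fin (n + 1) → ZMod 3) + Fin.cons 0 d = Fin.cons v (x + d) := by
        funext i
        refine Fin.cases ?_ ?_ i
        · simp
        · intro j; simp
      have e2 : (Fin.cons v x : Fin (n + 1) → ZMod 3) + 2 • Fin.cons 0 d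
          = Fin.cons v (x + 2 • d) := by
        funext i
        refine Fin.cases ?_ ?_ i
        · simp
        · intro j; simp
      rw [e1, e2]
      exact h
  have hcard : A.card = ∑ v : ZMod 3, (S v).card := by
    rw [← Finset.card_sigma]
    refine Finset.card_nbij' (fun y => ⟨y 0, Fin.tail y⟩) (fun p => Fin.cons p.1 p.2) ?_ ?_ ?_ ?_
    · intro y hy
      simp only [S, Finset.coe_sigma, Set.mem_sigma_iff, Finset.mem_coe, Finset.mem_univ,
        Finset.mem_filter, true_and, Fin.cons_self_tail]
      exact hy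
    · rintro ⟨v, x⟩ hp
      simpa [S] using hp
    · intro y hy
      simp
    · rintro ⟨v, x⟩ hp
      simp
  have hle : ∀ v, ((S v).card : ℝ) ≤ delta n * 3 ^ n := by
    intro v
    have := le_delta (hS v)
    rwa [div_le_iff₀ (by positivity)] at this
  rw [hd, hcard, div_le_iff₀ (by positivity)]
  push_cast
  calc ∑ v : ZMod 3, ((S v).card : ℝ) ≤ ∑ v : ZMod 3, delta n * 3 ^ n :=
        Finset.sum_le_sum (fun v _ => hle v)
    _ = delta n * 3 ^ (n + 1) := by
        rw [Finset.sum_const, Finset.card_univ, ZMod.card, pow_succ]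
        simp; ring

theorem delta_antitone : Antitone delta := antitone_nat_of_succ_le delta_succ_le

/-! ### Products -/

theorem mul_le_delta_add (a b : ℕ) : delta a * delta b ≤ delta (a + b) := by
  classical
  obtain ⟨A, hA, hda⟩ := exists_delta a
  obtain ⟨B, hB, hdb⟩ := exists_delta b
  let f : (Fin a → ZMod 3) × (Fin b → ZMod 3) → (Fin (a + b) → ZMod 3) :=
    fun p => Fin.append p.1 p.2
  have hinj : Function.Injective f := by
    rintro ⟨x, y⟩ ⟨x', y'⟩ h
    simp only [f] at h
    have h1 : x = x' := by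
      funext i
      have := congrFun h (Fin.castAdd b i)
      simpa using this
    have h2 : y = y' := by
      funext i
      have := congrFun h (Fin.natAdd a i)
      simpa using this
    rw [h1, h2]
  let C : Finset (Fin (a + b) → ZMod 3) := (A ×ˢ B).image f
  have hmem : ∀ z, z ∈ C ↔ (fun i => z (Fin.castAdd b i)) ∈ A ∧ (fun i => z (Fin.natAdd a i)) ∈ B := by
    intro z
    simp only [C, Finset.mem_image, Finset.mem_product, Prod.exists]
    constructor
    · rintro ⟨x, y, ⟨hx, hy⟩, rfl⟩
      simpa [f] using ⟨hx, hy⟩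
    · rintro ⟨h1, h2⟩
      exact ⟨_, _, ⟨h1, h2⟩, by simp [f, Fin.append_castAdd_natAdd]⟩
  have hC : IsFree C := by
    intro x d hd0 hd01 h
    simp only [hmem] at h
    obtain ⟨⟨h1, h1'⟩, ⟨h2, h2'⟩, h3, h3'⟩ := h
    by_cases hz : (fun i => d (Fin.castAdd b i)) = 0
    · by_cases hz' : (fun i => d (Fin.natAdd a i)) = 0
      · apply hd0
        funext i
        refine Fin.addCases (fun j => ?_) (fun j => ?_) i
        · exact congrFun hz j
        · exact congrFun hz' j
      · exact hB _ _ hz' (fun i => hd01 _) ⟨h1', h2', h3'⟩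
    · exact hA _ _ hz (fun i => hd01 _) ⟨h1, h2, h3⟩
  have hcard : C.card = A.card * B.card := by
    simp only [C]
    rw [Finset.card_image_of_injective _ hinj, Finset.card_product]
  have := le_delta hC
  rw [hcard] at this
  rw [hda, hdb]
  calc (A.card : ℝ) / 3 ^ a * ((B.card : ℝ) / 3 ^ b) = ((A.card * B.card : ℕ) : ℝ) / 3 ^ (a + b) := by
        push_cast; rw [pow_add]; field_simp
    _ ≤ _ := this

theorem delta_zero : delta 0 = 1 := by
  classical
  apply le_antisymm
  · obtain ⟨A, -, h⟩ := exists_delta 0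
    rw [h]
    have : A.card ≤ 1 := by
      calc A.card ≤ (Finset.univ : Finset (Fin 0 → ZMod 3)).card := Finset.card_le_univ A
        _ = 1 := by simp
    have h1 : (A.card : ℝ) ≤ 1 := by exact_mod_cast this
    simpa using h1
  · have hfree : IsFree (Finset.univ : Finset (Fin 0 → ZMod 3)) := by
      intro x d hd0 _ _
      exact hd0 (Subsingleton.elim _ _)
    have := le_delta hfree
    simpa using this

theorem pow_le_delta_mul (k N : ℕ) : delta k ^ N ≤ delta (k * N) := by
  induction N with
  | zero => simp [delta_zero]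
  | succ N ih =>
    calc delta k ^ (N + 1) = delta k ^ N * delta k := pow_succ _ _
      _ ≤ delta (k * N) * delta k := mul_le_mul_of_nonneg_right ih (delta_nonneg k)
      _ ≤ delta (k * N + k) := mul_le_delta_add _ _
      _ = delta (k * (N + 1)) := by rw [Nat.mul_succ]

/-! ### The lift of a cap set -/

theorem capDensity_le_delta (m : ℕ) : capDensity m ≤ delta (m + m) := by
  classical
  obtain ⟨C, hC, hd⟩ := exists_capDensity m
  let f : (Fin m → ZMod 3) × (Fin m → ZMod 3) → (Fin (m + m) → ZMod 3) :=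
    fun p => Fin.append p.1 (p.2 - p.1)
  have hinj : Function.Injective f := by
    rintro ⟨x, y⟩ ⟨x', y'⟩ h
    simp only [f] at h
    have h1 : x = x' := by
      funext i
      have := congrFun h (Fin.castAdd m i)
      simpa using this
    have h2 : y = y' := by
      funext i
      have := congrFun h (Fin.natAdd m i)
      simp only [Fin.append_right, Pi.sub_apply] at this
      rw [h1] at this
      exact sub_left_injective this
    rw [h1, h2]
  let A : Finset (Fin (m + m) → ZMod 3) := (Finset.univ ×ˢ C).image f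
  have hmem : ∀ z, z ∈ A ↔ (fun i => z (Fin.castAdd m i) + z (Fin.natAdd m i)) ∈ C := by
    intro z
    simp only [A, Finset.mem_image, Finset.mem_product, Prod.exists, Finset.mem_univ, true_and]
    constructor
    · rintro ⟨x, y, hy, rfl⟩
      have : (fun i => f (x, y) (Fin.castAdd m i) + f (x, y) (Fin.natAdd m i)) = y := by
        funext i
        simp only [f, Fin.append_left, Fin.append_right, Pi.sub_apply]
        ring
      rw [this]
      exact hy
    · intro h
      refine ⟨fun i => z (Fin.castAdd m i), _, h, ?_⟩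
      funext i
      refine Fin.addCases (fun j => ?_) (fun j => ?_) i
      · simp only [f, Fin.append_left]
      · simp only [f, Fin.append_right, Pi.sub_apply]
        ring
  have hA : IsFree A := by
    intro x d hd0 hd01 h
    simp only [hmem] at h
    obtain ⟨h1, h2, h3⟩ := h
    set s : Fin m → ZMod 3 := fun i => x (Fin.castAdd m i) + x (Fin.natAdd m i) with hs
    set t : Fin m → ZMod 3 := fun i => d (Fin.castAdd m i) + d (Fin.natAdd m i) with ht
    have e1 : (fun i => (x + d) (Fin.castAdd m i) + (x + d) (Fin.natAdd m i)) = s + t := by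
      funext i
      simp only [Pi.add_apply, hs, ht]; ring
    have e2 : (fun i => (x + 2 • d) (Fin.castAdd m i) + (x + 2 • d) (Fin.natAdd m i))
        = s + 2 • t := by
      funext i
      simp only [Pi.add_apply, Pi.smul_apply, hs, ht]; ring
    rw [e1] at h2
    rw [e2] at h3
    refine hC s t ?_ ⟨h1, h2, h3⟩
    intro h0
    apply hd0
    have key : ∀ u v : ZMod 3, (u = 0 ∨ u = 1) → (v = 0 ∨ v = 1) → u + v = 0 → u = 0 ∧ v = 0 := by
      decide
    funext i
    refine Fin.addCases (fun j => ?_) (fun j => ?_) i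
    · exact (key _ _ (hd01 (Fin.castAdd m j)) (hd01 (Fin.natAdd m j)) (congrFun h0 j)).1
    · exact (key _ _ (hd01 (Fin.castAdd m j)) (hd01 (Fin.natAdd m j)) (congrFun h0 j)).2
  have hcard : A.card = 3 ^ m * C.card := by
    simp only [A]
    rw [Finset.card_image_of_injective _ hinj, Finset.card_product, Finset.card_univ]
    simp
  have := le_delta hA
  rw [hcard] at this
  rw [hd]
  calc (C.card : ℝ) / 3 ^ m = ((3 ^ m * C.card : ℕ) : ℝ) / 3 ^ (m + m) := by
        push_cast; rw [pow_add]; field_simp
    _ ≤ _ := this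

theorem general_bound (m n : ℕ) (hm : 1 ≤ m) :
    capDensity m ^ ((n + 2 * m - 1) / (2 * m)) ≤ delta n := by
  set N := (n + 2 * m - 1) / (2 * m) with hN
  have hn : n ≤ (m + m) * N := by
    have h2 : 0 < 2 * m := by omega
    have := Nat.lt_mul_div_succ (n + 2 * m - 1) h2
    have h3 : 2 * m * ((n + 2 * m - 1) / (2 * m) + 1) = (m + m) * N + 2 * m := by
      rw [hN]; ring
    omega
  calc capDensity m ^ N ≤ delta (m + m) ^ N :=
        pow_le_pow_left₀ (capDensity_nonneg m) (capDensity_le_delta m) N
    _ ≤ delta ((m + m) * N) := pow_le_delta_mul _ _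
    _ ≤ delta n := delta_antitone hn

/-! ### A cap set of 112 points in `F_3^6` -/

/-- The codes (base 3, least significant digit first) of the points of the cap. -/
def capList : List ℕ :=
  [13, 14, 16, 17, 22, 23, 25, 26, 31, 32, 34, 35, 58, 59, 61, 62, 91, 92, 100, 101, 111, 114,
  117, 126, 138, 141, 144, 153, 172, 173, 181, 182, 192, 195, 198, 207, 219, 222, 225, 234, 255,
  258, 264, 267, 271, 272, 279, 288, 298, 299, 306, 315, 325, 326, 327, 330, 364, 368, 374, 376,
  392, 394, 400, 404, 406, 407, 408, 411, 446, 448, 454, 458, 472, 476, 482, 484, 498, 501, 507,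
  510, 514, 515, 522, 531, 541, 542, 549, 558, 568, 569, 570, 573, 608, 610, 616, 620, 634, 638,
  644, 646, 649, 650, 651, 654, 688, 692, 698, 700, 716, 718, 724, 728]

/-- The set of codes as a bit mask. -/
def capMask : ℕ := 1501981063492961411952637445447124447754428995474048756391141281132566834771754234672320410453904927893965483302964397750490341890341595995365955859177605172773525863330701837985157925227981851649532767068699542662897664

/-- The code of the third point of the line through the points with codes `a` and `b`. -/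
def third (a b : ℕ) : ℕ :=
  ((6 - a % 3 - b % 3) % 3) + 3 * ((6 - a / 3 % 3 - b / 3 % 3) % 3)
    + 9 * ((6 - a / 9 % 3 - b / 9 % 3) % 3) + 27 * ((6 - a / 27 % 3 - b / 27 % 3) % 3)
    + 81 * ((6 - a / 81 % 3 - b / 81 % 3) % 3) + 243 * ((6 - a / 243 % 3 - b / 243 % 3) % 3)

theorem capList_check :
    (capList.all fun a => capList.all fun b => (Nat.beq a b) || !(Nat.testBit capMask (third a b)))
      = true := by
  decide +kernel

theorem capList_mask : (capList.all fun a => Nat.testBit capMask a) = true := by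
  decide +kernel

theorem capList_lt : (capList.all fun a => Nat.blt a 729) = true := by
  decide +kernel

theorem capList_nodup : capList.Nodup := by
  decide +kernel

/-- The point of `F_3^6` with a given code. -/
def decode (a : ℕ) : Fin 6 → ZMod 3 := fun i => ((a / 3 ^ (i : ℕ) : ℕ) : ZMod 3)

/-- The code of a point of `F_3^6`. -/
def encode (x : Fin 6 → ZMod 3) : ℕ :=
  (x 0).val + 3 * (x 1).val + 9 * (x 2).val + 27 * (x 3).val + 81 * (x 4).val + 243 * (x 5).val

theorem encode_decode {a : ℕ} (ha : a < 729) : encode (decode a) = a := by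
  have h0 : (decode a 0).val = a % 3 := by
    have : decode a 0 = ((a : ℕ) : ZMod 3) := by simp [decode]
    rw [this]; exact ZMod.val_natCast 3 a
  have h1 : (decode a 1).val = a / 3 % 3 := by
    have : decode a 1 = ((a / 3 : ℕ) : ZMod 3) := by simp [decode]
    rw [this]; exact ZMod.val_natCast 3 _
  have h2 : (decode a 2).val = a / 9 % 3 := by
    have : decode a 2 = ((a / 9 : ℕ) : ZMod 3) := by simp [decode]
    rw [this]; exact ZMod.val_natCast 3 _
  have h3 : (decode a 3).val = a / 27 % 3 := by
    have : decode a 3 = ((a / 27 : ℕ) : ZMod 3) := by simp [decode]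
    rw [this]; exact ZMod.val_natCast 3 _
  have h4 : (decode a 4).val = a / 81 % 3 := by
    have : decode a 4 = ((a / 81 : ℕ) : ZMod 3) := by simp [decode]
    rw [this]; exact ZMod.val_natCast 3 _
  have h5 : (decode a 5).val = a / 243 % 3 := by
    have : decode a 5 = ((a / 243 : ℕ) : ZMod 3) := by simp [decode]
    rw [this]; exact ZMod.val_natCast 3 _
  unfold encode
  rw [h0, h1, h2, h3, h4, h5]
  omega

theorem val_neg_add (u v : ZMod 3) : (-u - v).val = (6 - u.val - v.val) % 3 := by
  revert u v; decide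

theorem encode_third (x y : Fin 6 → ZMod 3) : encode (-x - y) = third (encode x) (encode y) := by
  have hx0 := (x 0).val_lt
  have hx1 := (x 1).val_lt
  have hx2 := (x 2).val_lt
  have hx3 := (x 3).val_lt
  have hx4 := (x 4).val_lt
  have hx5 := (x 5).val_lt
  have hy0 := (y 0).val_lt
  have hy1 := (y 1).val_lt
  have hy2 := (y 2).val_lt
  have hy3 := (y 3).val_lt
  have hy4 := (y 4).val_lt
  have hy5 := (y 5).val_lt
  have key : ∀ z : Fin 6 → ZMod 3, (z 0).val < 3 → (z 1).val < 3 → (z 2).val < 3 →
      (z 3).val < 3 → (z 4).val < 3 → (z 5).val < 3 →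
      encode z % 3 = (z 0).val ∧ encode z / 3 % 3 = (z 1).val ∧ encode z / 9 % 3 = (z 2).val ∧
      encode z / 27 % 3 = (z 3).val ∧ encode z / 81 % 3 = (z 4).val ∧
      encode z / 243 % 3 = (z 5).val := by
    intro z h0 h1 h2 h3 h4 h5
    unfold encode
    refine ⟨?_, ?_, ?_, ?_, ?_, ?_⟩ <;> omega
  obtain ⟨a0, a1, a2, a3, a4, a5⟩ := key x hx0 hx1 hx2 hx3 hx4 hx5
  obtain ⟨b0, b1, b2, b3, b4, b5⟩ := key y hy0 hy1 hy2 hy3 hy4 hy5
  unfold third
  rw [a0, a1, a2, a3, a4, a5, b0, b1, b2, b3, b4, b5]
  unfold encode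
  simp only [Pi.sub_apply, Pi.neg_apply, val_neg_add]

/-- The 112 points. -/
def capPts : Finset (Fin 6 → ZMod 3) := capList.toFinset.image decode

theorem mem_lt {a : ℕ} (ha : a ∈ capList) : a < 729 := by
  have := List.all_eq_true.mp capList_lt a ha
  simpa [Nat.blt_eq] using this

theorem capPts_card : capPts.card = 112 := by
  unfold capPts
  rw [Finset.card_image_of_injOn, List.toFinset_card_of_nodup capList_nodup]
  · rfl
  · intro a ha b hb h
    have ha' : a ∈ capList := by simpa using ha
    have hb' : b ∈ capList := by simpa using hb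
    rw [← encode_decode (mem_lt ha'), ← encode_decode (mem_lt hb'), h]

theorem capPts_isCapSet : IsCapSet capPts := by
  intro x d hd ⟨h1, h2, h3⟩
  simp only [capPts, Finset.mem_image, List.mem_toFinset] at h1 h2 h3
  obtain ⟨a, ha, rfl⟩ := h1
  obtain ⟨b, hb, hb'⟩ := h2
  obtain ⟨c, hc, hc'⟩ := h3
  have hsum : decode c = -decode a - decode b := by
    rw [hc', hb']
    funext i
    simp only [Pi.add_apply, Pi.smul_apply, Pi.sub_apply, Pi.neg_apply]
    have : ∀ u v : ZMod 3, u + 2 • v = -u - (u + v) := by decide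
    exact this _ _
  have hcode : c = third a b := by
    have := congrArg encode hsum
    rw [encode_decode (mem_lt hc), encode_third, encode_decode (mem_lt ha),
      encode_decode (mem_lt hb)] at this
    exact this
  have hchk := List.all_eq_true.mp (List.all_eq_true.mp capList_check a ha) b hb
  have hcm := List.all_eq_true.mp capList_mask c hc
  rw [hcode] at hcm
  rw [hcm] at hchk
  simp only [Bool.not_true, Bool.or_false] at hchk
  have hab : a = b := Nat.eq_of_beq_eq_true hchk
  apply hd
  rw [hab] at hb'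
  have : decode b + d = decode b + 0 := by rw [← hb', add_zero]
  exact add_left_cancel this

theorem capDensity_six : (112 / 729 : ℝ) ≤ capDensity 6 := by
  have := le_capDensity capPts_isCapSet
  rw [capPts_card] at this
  norm_num at this ⊢
  exact this

theorem result :
    (∀ m n : ℕ, 1 ≤ m → capDensity m ^ ((n + 2 * m - 1) / (2 * m)) ≤ delta n) ∧
    (∀ n : ℕ, (112 / 729 : ℝ) ^ ((n + 11) / 12) ≤ delta n) := by
  refine ⟨fun m n hm => general_bound m n hm, fun n => ?_⟩
  calc (112 / 729 : ℝ) ^ ((n + 11) / 12) ≤ capDensity 6 ^ ((n + 11) / 12) :=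
        pow_le_pow_left₀ (by norm_num) capDensity_six _
    _ ≤ delta n := general_bound 6 n (by norm_num)

end Pool.Agent.Results.MP_28d996_co.CapSetLift
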